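import Pool.Agent.N20.DI.Stm

/-!
# Chains of `p`-subgroups of `K` and of a normal subgroup
-/

set_option autoImplicit false
set_option linter.unusedSectionVars false

open scoped Classical

noncomputable section

namespace Pool.Agent.N723.DI

open Pool.Agent.R674.Ce
open Pool.Agent.Y63.KR (IsPChain chainStabilizer conjSub conjSub_eq_iff mem_chainStabilizer
  mem_conjSub conjSub_le conj_mem_conjSub)
open Pool.Agent.N20.DI (S_DEC)

variable {Γ : Type} [Group Γ] [Finite Γ]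

/-- normalisers grow in `p`-groups -/
theorem lt_inf_normalizer {p : ℕ} [Fact p.Prime] {R P : Subgroup Γ} (hP : IsPGroup p P)
    (h : R < P) : R < P ⊓ Subgroup.normalizer (R : Set Γ) := by
  refine lt_of_le_of_ne (le_inf h.le Subgroup.le_normalizer) fun heq => ?_
  have : Group.IsNilpotent P := hP.isNilpotent
  have h1 : NormalizerCondition P := Group.normalizerCondition_of_isNilpotent
  have h2 : R.subgroupOf P < ⊤ := by
    refine lt_top_iff_ne_top.mpr fun h3 => ?_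
    exact h.not_ge (Subgroup.subgroupOf_eq_top.mp h3)
  have h3 := h1 (R.subgroupOf P) h2
  obtain ⟨_, y, hy, hyn⟩ := SetLike.lt_iff_le_and_exists.mp h3
  apply hyn
  rw [← Subgroup.subgroupOf_normalizer_eq h.le, Subgroup.mem_subgroupOf] at hy
  rw [Subgroup.mem_subgroupOf, heq]
  exact Subgroup.mem_inf.mpr ⟨y.2, hy⟩

/-- the chains of `p`-subgroups which meet `G` nontrivially -/
theorem chs_meetK {p : ℕ} {G : Subgroup Γ} [G.Normal] {K : Subgroup Γ} (hGK : G ≤ K)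
    (f : Subgroup Γ → ℤ) :
    chs {P | P ∈ Sp p K ∧ G ⊓ P ≠ ⊥} (wt K f) = chs (Sp p G) (wt K f) := by
  have e1 := chs_sub (J := K) f {P | P ∈ Sp p K ∧ G ⊓ P ≠ ⊥} (fun P => G ⊓ P)
    (by
      rintro P ⟨⟨hP, hP1, hPK⟩, hP0⟩
      refine ⟨⟨hP.to_le inf_le_right, hP0, inf_le_left.trans hGK⟩, ?_⟩
      rw [← inf_assoc, inf_idem]
      exact hP0)
    (fun P _ => by
      change G ⊓ (G ⊓ P) = G ⊓ P
      rw [← inf_assoc, inf_idem])
    (fun P _ Q _ h => inf_le_inf_left _ h)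
    (fun P _ => inf_le_right)
    (fun P _ x _ h => by
      rw [conjSub_inf, h, conjSub_normal])
  have s1 : {a | a ∈ ({P | P ∈ Sp p K ∧ G ⊓ P ≠ ⊥} : Set (Subgroup Γ)) ∧
      (fun P => G ⊓ P) a = a} = Sp p G := by
    ext P
    constructor
    · rintro ⟨⟨⟨hP, _, _⟩, hP0⟩, h2⟩
      have h3 : G ⊓ P = P := h2
      exact ⟨hP, by rw [← h3]; exact hP0, inf_eq_right.mp h3⟩
    · rintro ⟨hP, hP0, hPG⟩
      have h3 : G ⊓ P = P := inf_eq_right.mpr hPG
      exact ⟨⟨⟨hP, hP0, hPG.trans hGK⟩, by rw [h3]; exact hP0⟩, h3⟩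
  rw [s1] at e1
  exact e1

/-- the chains above `R` in `K` and in the normaliser of `R` in `K` -/
theorem chs_norm {p : ℕ} [Fact p.Prime] (K R : Subgroup Γ) (hRK : R ≤ K)
    (f : Subgroup Γ → ℤ) :
    chs {P : Subgroup Γ | IsPGroup p P ∧ R < P ∧ P ≤ K}
        (wt (K ⊓ Subgroup.normalizer (R : Set Γ)) f) =
      chs {P : Subgroup Γ | IsPGroup p P ∧ R < P ∧ P ≤ K ⊓ Subgroup.normalizer (R : Set Γ)}
        (wt (K ⊓ Subgroup.normalizer (R : Set Γ)) f) := by
  set N := Subgroup.normalizer (R : Set Γ) with hN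
  have e1 := chs_sub (J := K ⊓ N) f {P : Subgroup Γ | IsPGroup p P ∧ R < P ∧ P ≤ K}
    (fun P => P ⊓ N)
    (by
      rintro P ⟨hP, hR, hPK⟩
      exact ⟨hP.to_le inf_le_left, lt_inf_normalizer hP hR, inf_le_left.trans hPK⟩)
    (fun P _ => by
      change P ⊓ N ⊓ N = P ⊓ N
      rw [inf_assoc, inf_idem])
    (fun P _ Q _ h => inf_le_inf_right _ h)
    (fun P _ => inf_le_left)
    (fun P _ x hx h => by
      rw [conjSub_inf, h, conjSub_self (Subgroup.mem_inf.mp hx).2])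
  have s1 : {a | a ∈ ({P : Subgroup Γ | IsPGroup p P ∧ R < P ∧ P ≤ K} : Set (Subgroup Γ)) ∧
      (fun P => P ⊓ N) a = a} = {P : Subgroup Γ | IsPGroup p P ∧ R < P ∧ P ≤ K ⊓ N} := by
    ext P
    constructor
    · rintro ⟨⟨hP, hR, hPK⟩, h2⟩
      have h3 : P ⊓ N = P := h2
      exact ⟨hP, hR, le_inf hPK (inf_eq_left.mp h3)⟩
    · rintro ⟨hP, hR, hPK⟩
      exact ⟨⟨hP, hR, hPK.trans inf_le_left⟩, inf_eq_left.mpr (hPK.trans inf_le_right)⟩
  rw [s1] at e1
  exact e1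

/-- the chains with least element `R` -/
lemma sum_least [Fintype (Set (Subgroup Γ))] {p : ℕ} [Fact p.Prime] (K : Subgroup Γ)
    (f : Subgroup Γ → ℤ) {R : Subgroup Γ} (hR : IsPGroup p R) (hR0 : R ≠ ⊥) (hRK : R ≤ K) :
    ∑ σ ∈ (Finset.univ : Finset (Set (Subgroup Γ))).filter
      (fun σ => (σ ⊆ Sp p K ∧ IsChain (· ≤ ·) σ) ∧ R ∈ σ ∧ ∀ P ∈ σ, R ≤ P), wt K f σ =
    - chs {P : Subgroup Γ | IsPGroup p P ∧ R < P ∧ P ≤ K ⊓ Subgroup.normalizer (R : Set Γ)}
          (wt (K ⊓ Subgroup.normalizer (R : Set Γ)) f) := by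
  rw [← chs_norm K R hRK f, chs_eq, ← Finset.sum_neg_distrib]
  refine Finset.sum_bij' (fun σ _ => σ \ {R}) (fun τ _ => insert R τ) ?_ ?_ ?_ ?_ ?_
  · intro σ hσ
    simp only [Finset.mem_filter, Finset.mem_univ, true_and] at hσ ⊢
    obtain ⟨⟨h1, h2⟩, h3, h4⟩ := hσ
    refine ⟨?_, h2.mono Set.sdiff_subset⟩
    rintro P ⟨hP, hne⟩
    exact ⟨(h1 hP).1, lt_of_le_of_ne (h4 P hP) (fun h => hne h.symm), (h1 hP).2.2⟩
  · intro τ hτ
    simp only [Finset.mem_filter, Finset.mem_univ, true_and] at hτ ⊢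
    obtain ⟨h1, h2⟩ := hτ
    refine ⟨⟨?_, ?_⟩, Set.mem_insert _ _, ?_⟩
    · refine Set.insert_subset ⟨hR, hR0, hRK⟩ ?_
      intro P hP
      refine ⟨(h1 hP).1, ?_, (h1 hP).2.2⟩
      rintro rfl
      exact not_lt_bot (h1 hP).2.1
    · exact h2.insert fun P hP _ => Or.inl (h1 hP).2.1.le
    · rintro P (rfl | hP)
      · exact le_rfl
      · exact (h1 hP).2.1.le
  · intro σ hσ
    simp only [Finset.mem_filter, Finset.mem_univ, true_and] at hσ
    change insert R (σ \ {R}) = σ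
    rw [Set.insert_sdiff_singleton, Set.insert_eq_of_mem hσ.2.1]
  · intro τ hτ
    simp only [Finset.mem_filter, Finset.mem_univ, true_and] at hτ
    change (insert R τ) \ {R} = τ
    exact Set.insert_sdiff_self_of_notMem fun h => lt_irrefl _ (hτ.1 h).2.1
  · intro σ hσ
    simp only [Finset.mem_filter, Finset.mem_univ, true_and] at hσ
    have hin : insert R (σ \ {R}) = σ := by
      rw [Set.insert_sdiff_singleton, Set.insert_eq_of_mem hσ.2.1]
    unfold wt
    have e1 : σ.ncard = (σ \ {R}).ncard + 1 := by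
      conv_lhs => rw [← hin]
      exact Set.ncard_insert_of_notMem (fun h => h.2 rfl) (Set.toFinite _)
    have e2 : K ⊓ chainStabilizer σ =
        K ⊓ Subgroup.normalizer (R : Set Γ) ⊓ chainStabilizer (σ \ {R}) := by
      ext x
      simp only [Subgroup.mem_inf, mem_chainStabilizer]
      constructor
      · rintro ⟨h1, h2⟩
        exact ⟨⟨h1, conjSub_eq_iff.mp (h2 R hσ.2.1)⟩, fun P hP => h2 P hP.1⟩
      · rintro ⟨⟨h1, h2⟩, h3⟩
        refine ⟨h1, fun P hP => ?_⟩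
        by_cases h4 : P = R
        · rw [h4]
          exact conjSub_eq_iff.mpr h2
        · exact h3 P ⟨hP, h4⟩
    rw [e1, e2, pow_succ]
    ring

/-- **The decomposition of the alternating sum.** -/
theorem DEC : S_DEC := by
  intro p _ Γ _ _ G _ K hGK _ f
  have : Fintype (Subgroup Γ) := Fintype.ofFinite _
  have : Fintype (Set (Subgroup Γ)) := Fintype.ofFinite _
  rw [finsum_eq_sum_of_fintype, ← chs_meetK hGK f, chs_eq, chs_eq]
  have key : ∀ σ ∈ (Finset.univ : Finset (Set (Subgroup Γ))).filter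
      (fun σ => σ ⊆ Sp p K ∧ IsChain (· ≤ ·) σ), wt K f σ =
      (if σ ⊆ {P | P ∈ Sp p K ∧ G ⊓ P ≠ ⊥} then wt K f σ else 0) +
        ∑ R : Subgroup Γ, if (IsPGroup p R ∧ R ≠ ⊥ ∧ R ≤ K ∧ G ⊓ R = ⊥) ∧ R ∈ σ ∧
          ∀ P ∈ σ, R ≤ P then wt K f σ else 0 := by
    intro σ hσ
    simp only [Finset.mem_filter, Finset.mem_univ, true_and] at hσ
    obtain ⟨h1, h2⟩ := hσ
    by_cases h : σ ⊆ {P | P ∈ Sp p K ∧ G ⊓ P ≠ ⊥}
    · rw [if_pos h, Finset.sum_eq_zero, add_zero]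
      intro R _
      rw [if_neg]
      rintro ⟨h3, h4⟩
      exact (h h4.1).2 h3.2.2.2
    · rw [if_neg h, zero_add]
      obtain ⟨Q, hQ, hQ'⟩ := Set.not_subset.mp h
      have hGQ : G ⊓ Q = ⊥ := by
        by_contra h3
        exact hQ' ⟨h1 hQ, h3⟩
      obtain ⟨R, hR1, hR2⟩ := (Set.toFinite σ).exists_minimal ⟨Q, hQ⟩
      have hRle : ∀ P ∈ σ, R ≤ P := by
        intro P hP
        rcases h2.total hR1 hP with h3 | h3
        · exact h3
        · exact hR2 hP h3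
      have hGR : G ⊓ R = ⊥ := by
        rw [eq_bot_iff, ← hGQ]
        exact inf_le_inf_left _ (hRle Q hQ)
      rw [Finset.sum_eq_single R]
      · rw [if_pos ⟨⟨(h1 hR1).1, (h1 hR1).2.1, (h1 hR1).2.2, hGR⟩, hR1, hRle⟩]
      · intro R' _ hne
        rw [if_neg]
        rintro ⟨_, h4, h5⟩
        exact hne (le_antisymm (h5 R hR1) (hRle R' h4))
      · intro h3
        exact absurd (Finset.mem_univ _) h3
  rw [Finset.sum_congr rfl key, Finset.sum_add_distrib, Finset.sum_comm, sub_eq_add_neg,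
    ← Finset.sum_neg_distrib]
  congr 1
  · rw [← Finset.sum_filter, Finset.filter_filter]
    refine Finset.sum_congr ?_ fun _ _ => rfl
    ext σ
    simp only [Finset.mem_filter, Finset.mem_univ, true_and]
    constructor
    · rintro ⟨⟨_, h2⟩, h3⟩
      exact ⟨h3, h2⟩
    · rintro ⟨h2, h3⟩
      exact ⟨⟨fun P hP => (h2 hP).1, h3⟩, h2⟩
  · refine Finset.sum_congr rfl fun R _ => ?_
    by_cases hR : IsPGroup p R ∧ R ≠ ⊥ ∧ R ≤ K ∧ G ⊓ R = ⊥
    · rw [if_pos hR, ← sum_least K f hR.1 hR.2.1 hR.2.2.1, ← Finset.sum_filter,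
        Finset.filter_filter]
      refine Finset.sum_congr ?_ fun _ _ => rfl
      ext σ
      simp only [Finset.mem_filter, Finset.mem_univ, true_and]
      constructor
      · rintro ⟨h2, h3⟩
        exact ⟨h2, h3.2⟩
      · rintro ⟨h2, h3⟩
        exact ⟨h2, hR, h3⟩
    · rw [if_neg hR, neg_zero]
      refine Finset.sum_eq_zero fun σ _ => ?_
      rw [if_neg (fun h => hR h.1)]

end Pool.Agent.N723.DI
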