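import Pool.Agent.N59.TT.Stm

/-!
# Project TT, part DIN: a normal infinite dihedral group generated by elements fixing points
(helper723)
-/

set_option autoImplicit false

namespace Pool.Agent.N723.TT_DIN

open Pool.Agent.N59.TT

theorem main : Pool.Agent.N59.TT.S_DIN := by
  classical
  intro G V _ _ r r' s s' hr hr' hs hs' ht hN hO hH
  obtain ⟨t, htd⟩ : ∃ t, t = r * r' := ⟨_, rfl⟩
  rw [← htd] at ht hH
  have hri : r⁻¹ = r := inv_eq_of_mul_eq_one_right hr
  have hri' : r'⁻¹ = r' := inv_eq_of_mul_eq_one_right hr'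
  have hti : t⁻¹ = r' * r := by rw [htd, mul_inv_rev, hri, hri']
  -- conjugation by `r`
  have hrt1 : r * t * r⁻¹ = t⁻¹ := by
    rw [hti, hri, htd, ← mul_assoc, hr, one_mul]
  have hrt : ∀ n : ℤ, r * t ^ n = t ^ (-n) * r := by
    intro n
    have h1 : r * t ^ n * r⁻¹ = t ^ (-n) := by
      rw [← conj_zpow, hrt1, inv_zpow']
    rw [← h1, inv_mul_cancel_right]
  have hr't : r' = t ^ (-1 : ℤ) * r := by
    rw [zpow_neg_one, hti, mul_assoc, hr, mul_one]
  have hrr' : r = t * r' := by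
    rw [htd, mul_assoc, hr', mul_one]
  -- the elements of the dihedral group
  have hR : ∀ x ∈ Subgroup.closure {r, r'}, ∃ n : ℤ, x = t ^ n ∨ x = t ^ n * r := by
    intro x hx
    induction hx using Subgroup.closure_induction with
    | mem x hx =>
      rcases hx with rfl | rfl
      · exact ⟨0, Or.inr (by rw [zpow_zero, one_mul])⟩
      · exact ⟨-1, Or.inr hr't⟩
    | one => exact ⟨0, Or.inl (zpow_zero _).symm⟩
    | mul x y _ _ ihx ihy =>
      obtain ⟨n, hn | hn⟩ := ihx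
      · obtain ⟨m, hm | hm⟩ := ihy
        · exact ⟨n + m, Or.inl (by rw [hn, hm, zpow_add])⟩
        · exact ⟨n + m, Or.inr (by rw [hn, hm, zpow_add, mul_assoc])⟩
      · obtain ⟨m, hm | hm⟩ := ihy
        · exact ⟨n + -m, Or.inr (by rw [hn, hm, mul_assoc, hrt, ← mul_assoc, zpow_add])⟩
        · refine ⟨n + -m, Or.inl ?_⟩
          rw [hn, hm, mul_assoc, ← mul_assoc r, hrt, mul_assoc (t ^ (-m)), hr, mul_one, zpow_add]
    | inv x _ ih =>
      obtain ⟨n, hn | hn⟩ := ih
      · exact ⟨-n, Or.inl (by rw [hn, zpow_neg])⟩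
      · refine ⟨n, Or.inr ?_⟩
        rw [hn, mul_inv_rev, hri, ← zpow_neg, hrt, neg_neg]
  have htR : t ∈ Subgroup.closure {r, r'} := by
    rw [htd]
    exact Subgroup.mul_mem _ (Subgroup.subset_closure (Or.inl rfl))
      (Subgroup.subset_closure (Or.inr rfl))
  -- conjugates of `t`
  have hpow : ∀ g : G, ∃ m : ℤ, g * t * g⁻¹ = t ^ m := by
    intro g
    obtain ⟨m, hm | hm⟩ := hR _ (hN g t htR)
    · exact ⟨m, hm⟩
    · exfalso
      have h1 : (g * t * g⁻¹) * (g * t * g⁻¹) = 1 := by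
        rw [hm, mul_assoc, ← mul_assoc r, hrt, mul_assoc (t ^ (-m)), hr, mul_one, ← zpow_add,
          add_neg_cancel, zpow_zero]
      have h2 : g * t ^ (2 : ℤ) * g⁻¹ = 1 := by
        rw [← h1, zpow_two]
        group
      have h3 : t ^ (2 : ℤ) = 1 := by
        have h4 : t ^ (2 : ℤ) = g⁻¹ * (g * t ^ (2 : ℤ) * g⁻¹) * g := by group
        rw [h4, h2]
        group
      have := ht 2 h3
      omega
  have hpm : ∀ g : G, g * t * g⁻¹ = t ∨ g * t * g⁻¹ = t⁻¹ := by
    intro g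
    obtain ⟨m, hm⟩ := hpow g
    obtain ⟨m', hm'⟩ := hpow g⁻¹
    rw [inv_inv] at hm'
    have h1 : t = t ^ (m * m') := by
      have h2 : t = g * (g⁻¹ * t * g) * g⁻¹ := by group
      rw [hm', ← conj_zpow, hm, ← zpow_mul] at h2
      exact h2
    have h3 : m * m' = 1 := by
      have h4 : t ^ (m * m' - 1) = 1 := by
        rw [zpow_sub, zpow_one, ← h1, mul_inv_cancel]
      have := ht _ h4
      omega
    rcases Int.eq_one_or_neg_one_of_mul_eq_one h3 with h5 | h5
    · left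
      rw [hm, h5, zpow_one]
    · right
      rw [hm, h5, zpow_neg_one]
  -- the centraliser of `t`
  have hcz : ∀ g : G, g * t = t * g → ∀ n : ℤ, g * t ^ n = t ^ n * g := by
    intro g hg n
    exact (Commute.zpow_right (a := g) (b := t) hg n)
  have hci : ∀ g : G, g * t = t * g → g⁻¹ * t = t * g⁻¹ := by
    intro g hg
    exact (Commute.inv_left (a := g) (b := t) hg)
  have hcm : ∀ g h : G, g * t = t * g → h * t = t * h → (g * h) * t = t * (g * h) := by
    intro g h hg hh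
    rw [mul_assoc, hh, ← mul_assoc, hg, mul_assoc]
  obtain ⟨c0, hc0⟩ : ∃ c0 : G, ∀ g : G, g * t = t * g ∨ (c0⁻¹ * g) * t = t * (c0⁻¹ * g) := by
    by_cases hex : ∃ c0 : G, ¬ c0 * t = t * c0
    · obtain ⟨c0, h0⟩ := hex
      refine ⟨c0, fun g => ?_⟩
      have inv_of : ∀ g : G, ¬ g * t = t * g → g * t = t⁻¹ * g := by
        intro g hg
        rcases hpm g with h | h
        · exact absurd (by rw [← h, inv_mul_cancel_right, h]) hg
        · rw [← h, inv_mul_cancel_right]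
      by_cases hg : g * t = t * g
      · exact Or.inl hg
      · right
        have e1 := inv_of g hg
        have e2 := inv_of c0 h0
        have e3 : c0⁻¹ * t⁻¹ = t * c0⁻¹ := by
          have h5 : t⁻¹ = c0 * t * c0⁻¹ := by rw [e2, mul_inv_cancel_right]
          rw [h5]
          group
        rw [mul_assoc, e1, ← mul_assoc, e3, mul_assoc]
    · push Not at hex
      exact ⟨1, fun g => Or.inl (hex g)⟩
  -- orbits
  have hs1 : ∀ x ∈ Subgroup.closure {r, r'}, ∃ n : ℤ, x • s = t ^ n • s := by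
    intro x hx
    obtain ⟨n, hn | hn⟩ := hR x hx
    · exact ⟨n, by rw [hn]⟩
    · exact ⟨n, by rw [hn, mul_smul, hs]⟩
  have hs2 : ∀ x ∈ Subgroup.closure {r, r'}, ∃ n : ℤ, x • s' = t ^ n • s' := by
    intro x hx
    obtain ⟨n, hn | hn⟩ := hR x hx
    · exact ⟨n, by rw [hn]⟩
    · refine ⟨n + 1, ?_⟩
      have h1 : x = t ^ (n + 1) * r' := by
        rw [hn, zpow_add, zpow_one, mul_assoc, ← hrr']
      rw [h1, mul_smul, hs']
  have hg1 : ∀ g : G, (∃ n : ℤ, g • s = t ^ n • s) ∨ ∃ n : ℤ, g • s = t ^ n • s' := by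
    intro g
    obtain ⟨x, hx, h | h⟩ := hO g
    · left
      obtain ⟨n, hn⟩ := hs1 x hx
      exact ⟨n, by rw [h, hn]⟩
    · right
      obtain ⟨n, hn⟩ := hs2 x hx
      exact ⟨n, by rw [h, hn]⟩
  obtain ⟨c1, hc1, hc1'⟩ : ∃ c1 : G, c1 * t = t * c1 ∧ ∀ g : G, g * t = t * g →
      (∃ n : ℤ, g • s = t ^ n • s) ∨ ∃ n : ℤ, (c1⁻¹ * g) • s = t ^ n • s := by
    by_cases hex : ∃ c1 : G, c1 * t = t * c1 ∧ ∃ n : ℤ, c1 • s = t ^ n • s'
    · obtain ⟨c1, h1, m, hm⟩ := hex
      refine ⟨c1, h1, fun g hg => ?_⟩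
      rcases hg1 g with h | ⟨n, hn⟩
      · exact Or.inl h
      · right
        refine ⟨n + -m, ?_⟩
        have e1 : s = t ^ m • (c1⁻¹ • s') := by
          rw [← mul_smul, ← hcz _ (hci c1 h1), mul_smul, ← hm, inv_smul_smul]
        have e2 : c1⁻¹ • s' = t ^ (-m) • s := by
          conv_rhs => rw [e1]
          rw [← mul_smul (t ^ (-m)), ← zpow_add, neg_add_cancel, zpow_zero, one_smul]
        rw [mul_smul, hn, ← mul_smul, hcz _ (hci c1 h1), mul_smul, e2, ← mul_smul, ← zpow_add]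
    · push Not at hex
      refine ⟨1, by rw [one_mul, mul_one], fun g hg => ?_⟩
      rcases hg1 g with h | ⟨n, hn⟩
      · exact Or.inl h
      · exact absurd hn (hex g hg n)
  -- the stabiliser
  let H : Subgroup G :=
    { carrier := {g | g • s = s ∧ g * t = t * g}
      mul_mem' := by
        rintro a b ⟨ha, ha'⟩ ⟨hb, hb'⟩
        exact ⟨by rw [mul_smul, hb, ha], hcm a b ha' hb'⟩
      one_mem' := ⟨one_smul _ _, by rw [one_mul, mul_one]⟩
      inv_mem' := by
        rintro a ⟨ha, ha'⟩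
        exact ⟨by rw [inv_smul_eq_iff, ha], hci a ha'⟩ }
  obtain ⟨A, hA, hAc⟩ := hH H (fun g hg => hg)
  -- the abelian subgroup
  let A' : Subgroup G :=
    { carrier := {x | ∃ n : ℤ, ∃ a : H, a ∈ A ∧ x = t ^ n * (a : G)}
      mul_mem' := by
        rintro x y ⟨n, a, ha, rfl⟩ ⟨m, b, hb, rfl⟩
        refine ⟨n + m, a * b, A.mul_mem ha hb, ?_⟩
        have e : (a : G) * t ^ m = t ^ m * a := hcz _ a.2.2 m
        rw [Subgroup.coe_mul, zpow_add, mul_assoc, ← mul_assoc (a : G), e]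
        group
      one_mem' := ⟨0, 1, A.one_mem, by simp⟩
      inv_mem' := by
        rintro x ⟨n, a, ha, rfl⟩
        refine ⟨-n, a⁻¹, A.inv_mem ha, ?_⟩
        have e : ((a : G))⁻¹ * t ^ (-n) = t ^ (-n) * (a : G)⁻¹ := hcz _ (hci _ a.2.2) (-n)
        rw [mul_inv_rev, ← zpow_neg, Subgroup.coe_inv, e] }
  refine ⟨A', ?_, ?_⟩
  · have hfin : Finite (H ⧸ A) := Subgroup.finite_quotient_of_finiteIndex
    have hsurj : Function.Surjective (fun q : Bool × Bool × (H ⧸ A) =>
        (QuotientGroup.mk ((if q.1 then c0 else 1) * (if q.2.1 then c1 else 1) *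
          ((Quotient.out q.2.2 : H) : G)) : G ⧸ A')) := by
      intro y
      obtain ⟨g, rfl⟩ := QuotientGroup.mk_surjective y
      obtain ⟨b0, hb0⟩ : ∃ b0 : Bool, ((if b0 then c0 else 1)⁻¹ * g) * t =
          t * ((if b0 then c0 else 1)⁻¹ * g) := by
        rcases hc0 g with h | h
        · exact ⟨false, by simpa using h⟩
        · exact ⟨true, by simpa using h⟩
      obtain ⟨g1, hg1d⟩ : ∃ g1, g1 = (if b0 then c0 else 1)⁻¹ * g := ⟨_, rfl⟩
      rw [← hg1d] at hb0
      obtain ⟨b1, n, hb1⟩ : ∃ b1 : Bool, ∃ n : ℤ,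
          ((if b1 then c1 else 1)⁻¹ * g1) • s = t ^ n • s := by
        rcases hc1' g1 hb0 with ⟨n, h⟩ | ⟨n, h⟩
        · exact ⟨false, n, by simpa using h⟩
        · exact ⟨true, n, by simpa using h⟩
      have hb1c : ((if b1 then c1 else 1)⁻¹ * g1) * t = t * ((if b1 then c1 else 1)⁻¹ * g1) := by
        cases b1
        · simpa using hb0
        · simp only [if_true]
          exact hcm _ _ (hci _ hc1) hb0
      obtain ⟨g2, hg2d⟩ : ∃ g2, g2 = (if b1 then c1 else 1)⁻¹ * g1 := ⟨_, rfl⟩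
      rw [← hg2d] at hb1 hb1c
      have hhm : t ^ (-n) * g2 ∈ H := by
        constructor
        · rw [mul_smul, hb1, ← mul_smul, ← zpow_add, neg_add_cancel, zpow_zero, one_smul]
        · apply hcm _ _ _ hb1c
          exact (Commute.zpow_self t (-n))
      obtain ⟨h, hhd⟩ : ∃ h : H, (h : G) = t ^ (-n) * g2 := ⟨⟨_, hhm⟩, rfl⟩
      refine ⟨(b0, b1, QuotientGroup.mk h), ?_⟩
      rw [QuotientGroup.eq]
      have hq : (Quotient.out (QuotientGroup.mk h : H ⧸ A))⁻¹ * h ∈ A := by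
        rw [← QuotientGroup.eq]
        exact QuotientGroup.out_eq' _
      refine ⟨n, _, hq, ?_⟩
      obtain ⟨o, ho⟩ : ∃ o : H, o = Quotient.out (QuotientGroup.mk h : H ⧸ A) := ⟨_, rfl⟩
      rw [← ho]
      have e1 : (o : G)⁻¹ * t ^ n = t ^ n * (o : G)⁻¹ := hcz _ (hci _ o.2.2) n
      have e4 : (o : G)⁻¹ * t ^ n * (t ^ (-n) * g2) = (o : G)⁻¹ * g2 := by group
      rw [Subgroup.coe_mul, Subgroup.coe_inv, ← mul_assoc (t ^ n), ← e1, hhd, e4, hg2d, hg1d]
      simp only [mul_inv_rev, mul_assoc]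
    have : Finite (G ⧸ A') := Finite.of_surjective _ hsurj
    exact Subgroup.finiteIndex_of_finite_quotient
  · rintro x ⟨n, a, ha, rfl⟩ y ⟨m, b, hb, rfl⟩
    have e1 : (a : G) * t ^ m = t ^ m * a := hcz _ a.2.2 m
    have e2 : (b : G) * t ^ n = t ^ n * b := hcz _ b.2.2 n
    have e3 : (a : G) * b = b * a := by
      have := congrArg (Subtype.val) (hAc a ha b hb)
      exact this
    calc t ^ n * (a : G) * (t ^ m * b) = t ^ n * ((a : G) * t ^ m) * b := by group
      _ = t ^ n * (t ^ m * a) * b := by rw [e1]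
      _ = t ^ n * t ^ m * ((a : G) * b) := by group
      _ = t ^ m * t ^ n * ((b : G) * a) := by rw [e3, ← zpow_add, ← zpow_add, add_comm]
      _ = t ^ m * (t ^ n * b) * a := by group
      _ = t ^ m * (b * t ^ n) * a := by rw [e2]
      _ = t ^ m * (b : G) * (t ^ n * a) := by group

end Pool.Agent.N723.TT_DIN
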