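import Pool.Agent.N819.UD.Stm2

set_option autoImplicit false

/-!
# UE/FIX: fixed points for acyclic dependency
-/

namespace Pool.Agent.N723.UE_FIX

open Pool.Agent.N819.UD

theorem step {E X : Type} [Fintype E] [DecidableEq E] (R : E → E → Prop)
    (T : (E → X) → E → X)
    (hA : ∀ A : Set E, A.Nonempty → ∃ e ∈ A, ∀ f ∈ A, ¬ R e f)
    (hT : ∀ e (κ κ' : E → X), (∀ f, R e f → κ f = κ' f) → T κ e = T κ' e) :
    ∀ (n : ℕ) (B : Finset E), (Finset.univ \ B).card = n → (∀ e ∈ B, ∀ f, R e f → f ∈ B) →
      ∀ κ : E → X, (∀ e ∈ B, T κ e = κ e) → ∃ κ : E → X, T κ = κ := by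
  intro n
  induction n with
  | zero =>
    intro B hB _ κ hκ
    refine ⟨κ, funext fun e => hκ e ?_⟩
    rw [Finset.card_eq_zero, Finset.sdiff_eq_empty_iff_subset] at hB
    exact hB (Finset.mem_univ e)
  | succ n ih =>
    intro B hB hcl κ hκ
    have hne : ({e | e ∉ B} : Set E).Nonempty := by
      have h1 : 0 < (Finset.univ \ B).card := by omega
      obtain ⟨e, he⟩ := Finset.card_pos.1 h1
      exact ⟨e, (Finset.mem_sdiff.1 he).2⟩
    obtain ⟨e, he, hef⟩ := hA _ hne
    have hRB : ∀ f, R e f → f ∈ B := by
      intro f hf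
      by_contra hfB
      exact hef f hfB hf
    have heB : e ∉ B := he
    have hup : ∀ f ∈ B, Function.update κ e (T κ e) f = κ f := by
      intro f hf
      have hfe : f ≠ e := by
        rintro rfl
        exact heB hf
      exact Function.update_of_ne hfe _ _
    have hTe : T (Function.update κ e (T κ e)) e = T κ e :=
      hT e _ _ fun f hf => hup f (hRB f hf)
    refine ih (insert e B) ?_ ?_ (Function.update κ e (T κ e)) ?_
    · have h1 : Finset.univ \ insert e B = (Finset.univ \ B).erase e := by
        ext f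
        simp only [Finset.mem_sdiff, Finset.mem_univ, true_and, Finset.mem_insert, not_or,
          Finset.mem_erase]
      rw [h1, Finset.card_erase_of_mem (Finset.mem_sdiff.2 ⟨Finset.mem_univ _, heB⟩), hB]
      rfl
    · intro b hb f hf
      rcases Finset.mem_insert.1 hb with rfl | hb
      · exact Finset.mem_insert_of_mem (hRB f hf)
      · exact Finset.mem_insert_of_mem (hcl b hb f hf)
    · intro b hb
      rcases Finset.mem_insert.1 hb with rfl | hb
      · rw [hTe, Function.update_self]
      · rw [hup b hb, ← hκ b hb]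
        exact hT b _ _ fun f hf => hup f (hcl b hb f hf)

theorem main : S_FIX := by
  intro E X _ _ _ R T hA hT
  exact step R T hA hT _ ∅ rfl (fun e he => absurd he (Finset.notMem_empty e))
    (fun _ => Classical.arbitrary X) (fun e he => absurd he (Finset.notMem_empty e))

end Pool.Agent.N723.UE_FIX
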